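import Mathlib

/-!
# Homeomorphisms of bounded displacement act on the closed unit ball, fixing the unit sphere
-/

set_option autoImplicit false

namespace Pool.Agent.UPP42

open Metric Set OpenPartialHomeomorph Filter Topology

variable {E : Type*} [NormedAddCommGroup E] [NormedSpace ℝ E]

/-- The group of homeomorphisms of bounded displacement. -/
def BD (E : Type*) [NormedAddCommGroup E] : Subgroup (E ≃ₜ E) where
  carrier := {f | ∃ C : ℝ, ∀ z, ‖f z - z‖ ≤ C}
  mul_mem' := by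
    rintro f g ⟨C, hC⟩ ⟨D, hD⟩
    refine ⟨C + D, fun z => ?_⟩
    have h : (f * g) z - z = (f (g z) - g z) + (g z - z) := by
      rw [Homeomorph.mul_apply]; abel
    rw [h]
    exact (norm_add_le _ _).trans (add_le_add (hC _) (hD _))
  one_mem' := ⟨0, fun z => by simp⟩
  inv_mem' := by
    rintro f ⟨C, hC⟩
    refine ⟨C, fun z => ?_⟩
    have h := hC (f⁻¹ z)
    have h2 : f (f⁻¹ z) = z := by
      rw [← Homeomorph.mul_apply, mul_inv_cancel]; rfl
    rw [h2, norm_sub_rev] at h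
    exact h

theorem phi_sub (z' z : E) : ‖(univUnitBall z' : E) - univUnitBall z‖ ≤
    2 * ‖z' - z‖ * (√(1 + ‖z‖ ^ 2))⁻¹ := by
  rw [univUnitBall_apply, univUnitBall_apply]
  set a := √(1 + ‖z‖ ^ 2) with ha
  set a' := √(1 + ‖z'‖ ^ 2) with ha'
  have ha0 : 0 < a := Real.sqrt_pos.2 (by positivity)
  have ha0' : 0 < a' := Real.sqrt_pos.2 (by positivity)
  have hsq : a ^ 2 = 1 + ‖z‖ ^ 2 := Real.sq_sqrt (by positivity)
  have hsq' : a' ^ 2 = 1 + ‖z'‖ ^ 2 := Real.sq_sqrt (by positivity)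
  have hz : ‖z‖ ≤ a := by
    apply abs_le_of_sq_le_sq' _ ha0.le |>.2
    linarith
  have hz' : ‖z'‖ ≤ a' := by
    apply abs_le_of_sq_le_sq' _ ha0'.le |>.2
    linarith
  have hnn : |‖z'‖ - ‖z‖| ≤ ‖z' - z‖ := abs_norm_sub_norm_le z' z
  have hd : |a - a'| ≤ ‖z' - z‖ := by
    have h1 : (a - a') * (a + a') = (‖z‖ - ‖z'‖) * (‖z‖ + ‖z'‖) := by nlinarith
    have h2 : |a - a'| * (a + a') = |‖z‖ - ‖z'‖| * (‖z‖ + ‖z'‖) := by
      rw [← abs_of_pos (add_pos ha0 ha0'), ← abs_mul, h1, abs_mul,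
        abs_of_nonneg (add_nonneg (norm_nonneg z) (norm_nonneg z'))]
    have h3 : |a - a'| * (a + a') ≤ ‖z' - z‖ * (a + a') := by
      rw [h2, abs_sub_comm]
      exact mul_le_mul hnn (add_le_add hz hz') (add_nonneg (norm_nonneg z) (norm_nonneg z'))
        (norm_nonneg _)
    exact le_of_mul_le_mul_right h3 (add_pos ha0 ha0')
  have heq : a'⁻¹ • z' - a⁻¹ • z = a⁻¹ • (z' - z) + (a'⁻¹ - a⁻¹) • z' := by
    rw [smul_sub, sub_smul]; abel
  rw [heq]
  have h4 : ‖a⁻¹ • (z' - z)‖ = ‖z' - z‖ * a⁻¹ := by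
    rw [norm_smul, Real.norm_eq_abs, abs_of_pos (inv_pos.2 ha0), mul_comm]
  have h5 : ‖(a'⁻¹ - a⁻¹) • z'‖ ≤ ‖z' - z‖ * a⁻¹ := by
    rw [norm_smul, Real.norm_eq_abs]
    have h6 : a'⁻¹ - a⁻¹ = (a - a') * (a'⁻¹ * a⁻¹) := by
      field_simp
    rw [h6, abs_mul, abs_of_pos (mul_pos (inv_pos.2 ha0') (inv_pos.2 ha0))]
    have h7 : |a - a'| * (a'⁻¹ * a⁻¹) * ‖z'‖ = |a - a'| * a⁻¹ * (a'⁻¹ * ‖z'‖) := by ring
    rw [h7]
    have h8 : a'⁻¹ * ‖z'‖ ≤ 1 := by
      rw [inv_mul_le_iff₀ ha0', mul_one]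
      exact hz'
    calc |a - a'| * a⁻¹ * (a'⁻¹ * ‖z'‖) ≤ |a - a'| * a⁻¹ * 1 :=
          mul_le_mul_of_nonneg_left h8 (mul_nonneg (abs_nonneg _) (inv_pos.2 ha0).le)
      _ ≤ ‖z' - z‖ * a⁻¹ := by
          rw [mul_one]
          exact mul_le_mul_of_nonneg_right hd (inv_pos.2 ha0).le
  calc ‖a⁻¹ • (z' - z) + (a'⁻¹ - a⁻¹) • z'‖ ≤ ‖a⁻¹ • (z' - z)‖ + ‖(a'⁻¹ - a⁻¹) • z'‖ :=
        norm_add_le _ _
    _ ≤ ‖z' - z‖ * a⁻¹ + ‖z' - z‖ * a⁻¹ := add_le_add h4.le h5
    _ = 2 * ‖z' - z‖ * a⁻¹ := by ring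

/-- Extension by the identity of the map conjugate to `f` on the open unit ball. -/
noncomputable def extF (f : E → E) (y : E) : E :=
  open Classical in if ‖y‖ < 1 then univUnitBall (f (univUnitBall.symm y)) else y

theorem extF_of_lt (f : E → E) {y : E} (hy : ‖y‖ < 1) :
    extF f y = univUnitBall (f (univUnitBall.symm y)) := by
  unfold extF; rw [if_pos hy]

theorem extF_of_ge (f : E → E) {y : E} (hy : ¬ ‖y‖ < 1) : extF f y = y := by
  unfold extF; rw [if_neg hy]

theorem norm_phi_lt (z : E) : ‖(univUnitBall z : E)‖ < 1 := by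
  have h : (univUnitBall z : E) ∈ (univUnitBall : OpenPartialHomeomorph E E).target :=
    (univUnitBall : OpenPartialHomeomorph E E).map_source (mem_univ z)
  simpa [univUnitBall_target] using h

theorem phi_psi {y : E} (hy : ‖y‖ < 1) : (univUnitBall (univUnitBall.symm y) : E) = y :=
  (univUnitBall : OpenPartialHomeomorph E E).right_inv (by simpa [univUnitBall_target] using hy)

theorem psi_phi (z : E) : (univUnitBall.symm (univUnitBall z) : E) = z :=
  (univUnitBall : OpenPartialHomeomorph E E).left_inv (mem_univ z)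

theorem norm_extF_lt_iff (f : E → E) (y : E) : ‖extF f y‖ < 1 ↔ ‖y‖ < 1 := by
  by_cases hy : ‖y‖ < 1
  · rw [extF_of_lt f hy]
    exact ⟨fun _ => hy, fun _ => norm_phi_lt _⟩
  · rw [extF_of_ge f hy]

theorem extF_comp (f g : E → E) (y : E) : extF f (extF g y) = extF (fun z => f (g z)) y := by
  by_cases hy : ‖y‖ < 1
  · rw [extF_of_lt g hy, extF_of_lt f (norm_phi_lt _), extF_of_lt _ hy, psi_phi]
  · rw [extF_of_ge g hy, extF_of_ge f hy, extF_of_ge _ hy]

theorem extF_id (y : E) : extF (fun z => z) y = y := by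
  by_cases hy : ‖y‖ < 1
  · rw [extF_of_lt _ hy, phi_psi hy]
  · rw [extF_of_ge _ hy]

theorem sqrt_psi {y : E} (hy : ‖y‖ < 1) :
    (√(1 + ‖(univUnitBall.symm y : E)‖ ^ 2))⁻¹ = √(1 - ‖y‖ ^ 2) := by
  have h0 : 0 < 1 - ‖y‖ ^ 2 := by nlinarith [norm_nonneg y]
  rw [univUnitBall_symm_apply, norm_smul, Real.norm_eq_abs, mul_pow, sq_abs, inv_pow,
    Real.sq_sqrt h0.le, ← Real.sqrt_inv]
  congr 1
  field_simp
  ring

theorem extF_sub (f : E → E) (C : ℝ) (hC : ∀ z, ‖f z - z‖ ≤ C) (y : E) :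
    ‖extF f y - y‖ ≤ 2 * C * √(1 - ‖y‖ ^ 2) := by
  have hC0 : 0 ≤ C := (norm_nonneg _).trans (hC 0)
  by_cases hy : ‖y‖ < 1
  · rw [extF_of_lt f hy]
    have h := phi_sub (f (univUnitBall.symm y)) (univUnitBall.symm y : E)
    rw [phi_psi hy, sqrt_psi hy] at h
    refine h.trans ?_
    apply mul_le_mul_of_nonneg_right _ (Real.sqrt_nonneg _)
    linarith [hC (univUnitBall.symm y : E)]
  · rw [extF_of_ge f hy, sub_self, norm_zero]
    positivity

theorem continuous_extF (f : E → E) (hf : Continuous f) (C : ℝ) (hC : ∀ z, ‖f z - z‖ ≤ C) :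
    Continuous (extF f) := by
  rw [continuous_iff_continuousAt]
  intro y
  by_cases hy : ‖y‖ < 1
  · have h1 : ContinuousAt (fun z : E => (univUnitBall (f (univUnitBall.symm z)) : E)) y := by
      have h2 : ContinuousAt (univUnitBall.symm : E → E) y := by
        apply (univUnitBall : OpenPartialHomeomorph E E).symm.continuousAt
        simpa [univUnitBall_target] using hy
      have h3 : Continuous (univUnitBall : E → E) := by
        rw [← continuousOn_univ]
        exact (univUnitBall : OpenPartialHomeomorph E E).continuousOn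
      exact (h3.comp hf).continuousAt.comp h2
    apply h1.congr
    have h4 : {z : E | ‖z‖ < 1} ∈ 𝓝 y :=
      (isOpen_lt continuous_norm continuous_const).mem_nhds hy
    filter_upwards [h4] with z hz
    exact (extF_of_lt f hz).symm
  · unfold ContinuousAt
    rw [tendsto_iff_norm_sub_tendsto_zero]
    have h1 : Tendsto (fun z : E => 2 * C * √(1 - ‖z‖ ^ 2) + ‖z - y‖) (𝓝 y) (𝓝 0) := by
      have h2 : Continuous (fun z : E => 2 * C * √(1 - ‖z‖ ^ 2) + ‖z - y‖) := by fun_prop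
      have h3 : 2 * C * √(1 - ‖y‖ ^ 2) + ‖y - y‖ = 0 := by
        have h4 : √(1 - ‖y‖ ^ 2) = 0 := by
          apply Real.sqrt_eq_zero_of_nonpos
          have : 1 ≤ ‖y‖ := not_lt.1 hy
          nlinarith
        rw [h4]; simp
      have h5 := h2.tendsto y
      rw [h3] at h5
      exact h5
    apply squeeze_zero (fun z => norm_nonneg _) _ h1
    intro z
    rw [extF_of_ge f hy]
    calc ‖extF f z - y‖ = ‖(extF f z - z) + (z - y)‖ := by congr 1; abel
      _ ≤ ‖extF f z - z‖ + ‖z - y‖ := norm_add_le _ _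
      _ ≤ 2 * C * √(1 - ‖z‖ ^ 2) + ‖z - y‖ := by
        have := extF_sub f C hC z
        linarith

/-- The homeomorphism of `E` extending by the identity. -/
noncomputable def extH (f : BD E) : E ≃ₜ E where
  toFun := extF (f : E ≃ₜ E)
  invFun := extF ((f⁻¹ : BD E) : E ≃ₜ E)
  left_inv y := by
    rw [extF_comp]
    have : (fun z => ((f⁻¹ : BD E) : E ≃ₜ E) ((f : E ≃ₜ E) z)) = fun z => z := by
      funext z
      rw [← Homeomorph.mul_apply, ← Subgroup.coe_mul, inv_mul_cancel]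
      rfl
    rw [this, extF_id]
  right_inv y := by
    rw [extF_comp]
    have : (fun z => (f : E ≃ₜ E) (((f⁻¹ : BD E) : E ≃ₜ E) z)) = fun z => z := by
      funext z
      rw [← Homeomorph.mul_apply, ← Subgroup.coe_mul, mul_inv_cancel]
      rfl
    rw [this, extF_id]
  continuous_toFun := by
    obtain ⟨C, hC⟩ := f.2
    exact continuous_extF _ (f : E ≃ₜ E).continuous C hC
  continuous_invFun := by
    obtain ⟨C, hC⟩ := (f⁻¹).2
    exact continuous_extF _ ((f⁻¹ : BD E) : E ≃ₜ E).continuous C hC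

theorem norm_extF_le_iff (f : E → E) (y : E) : ‖extF f y‖ ≤ 1 ↔ ‖y‖ ≤ 1 := by
  by_cases hy : ‖y‖ < 1
  · exact ⟨fun _ => hy.le, fun _ => ((norm_extF_lt_iff f y).2 hy).le⟩
  · rw [extF_of_ge f hy]

/-- The action on the closed unit ball. -/
noncomputable def discH : BD E →* (closedBall (0 : E) 1 ≃ₜ closedBall (0 : E) 1) where
  toFun f := Homeomorph.subtype (extH f) (fun y => by
    simp only [mem_closedBall, dist_zero_right]
    exact (norm_extF_le_iff (f : E ≃ₜ E) y).symm)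
  map_one' := by
    apply Homeomorph.ext
    intro y
    apply Subtype.ext
    exact extF_id (y : E)
  map_mul' f g := by
    apply Homeomorph.ext
    intro y
    apply Subtype.ext
    exact (extF_comp (f : E ≃ₜ E) (g : E ≃ₜ E) (y : E)).symm

theorem discH_apply (f : BD E) (y : closedBall (0 : E) 1) :
    ((discH f y : closedBall (0 : E) 1) : E) = extF (f : E ≃ₜ E) (y : E) := rfl

theorem discH_boundary (f : BD E) (y : closedBall (0 : E) 1) (hy : ‖(y : E)‖ = 1) :
    discH f y = y := by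
  apply Subtype.ext
  rw [discH_apply, extF_of_ge]
  rw [hy]
  exact lt_irrefl _

theorem discH_injective : Function.Injective (discH : BD E →* _) := by
  intro f g h
  apply Subtype.ext
  apply Homeomorph.ext
  intro z
  have hz : ‖(univUnitBall z : E)‖ < 1 := norm_phi_lt z
  have h1 : discH f ⟨univUnitBall z, by simpa using hz.le⟩
      = discH g ⟨univUnitBall z, by simpa using hz.le⟩ := by rw [h]
  have h2 := congrArg (fun w : closedBall (0 : E) 1 => (w : E)) h1
  simp only [discH_apply] at h2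
  rw [extF_of_lt _ hz, extF_of_lt _ hz, psi_phi] at h2
  have h3 := congrArg (univUnitBall.symm : E → E) h2
  rwa [psi_phi, psi_phi] at h3

end Pool.Agent.UPP42
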