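import Pool.Agent.UPP42.Comb
import Pool.Agent.UPP42.Disc

/-!
# Eight homeomorphisms of the plane of bounded displacement with the same square and product one
-/

set_option autoImplicit false

namespace Pool.Agent.UPP42

open Metric Set

/-- The basic piecewise linear map: `px (px u) = u + 1`. -/
noncomputable def px (u : ℝ) : ℝ := ⌊u⌋ + min (1 / 3 + 2 * Int.fract u) (5 / 6 + Int.fract u / 2)

theorem px_add_int (u : ℝ) (n : ℤ) : px (u + n) = px u + n := by
  unfold px
  rw [Int.floor_add_intCast, Int.fract_add_intCast]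
  push_cast
  ring

theorem px_add_one (u : ℝ) : px (u + 1) = px u + 1 := by
  have := px_add_int u 1
  simpa using this

theorem px_sub_one (u : ℝ) : px (u - 1) = px u - 1 := by
  have := px_add_one (u - 1)
  rw [sub_add_cancel] at this
  linarith

theorem px_low {u : ℝ} (h0 : 0 ≤ u) (h1 : u ≤ 1 / 3) : px u = 1 / 3 + 2 * u := by
  have hf : ⌊u⌋ = 0 := Int.floor_eq_zero_iff.2 ⟨h0, by linarith⟩
  unfold px
  rw [Int.fract, hf]
  simp only [Int.cast_zero, sub_zero, zero_add]
  apply min_eq_left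
  linarith

theorem px_high {u : ℝ} (h0 : 1 / 3 ≤ u) (h1 : u ≤ 1) : px u = 5 / 6 + u / 2 := by
  rcases lt_or_eq_of_le h1 with h | h
  · have hf : ⌊u⌋ = 0 := Int.floor_eq_zero_iff.2 ⟨by linarith, h⟩
    unfold px
    rw [Int.fract, hf]
    simp only [Int.cast_zero, sub_zero, zero_add]
    apply min_eq_right
    linarith
  · subst h
    have := px_add_one 0
    rw [px_low (le_refl 0) (by norm_num)] at this
    norm_num at this ⊢
    linarith

theorem px_strictMono : StrictMono px := by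
  intro u v huv
  have hu0 := Int.fract_nonneg u
  have hu1 := Int.fract_lt_one u
  have hv0 := Int.fract_nonneg v
  have hv1 := Int.fract_lt_one v
  have hu := Int.floor_add_fract u
  have hv := Int.floor_add_fract v
  rcases lt_or_eq_of_le (Int.floor_mono huv.le) with h | h
  · have h1 : (⌊u⌋ : ℝ) + 1 ≤ ⌊v⌋ := by exact_mod_cast h
    have h2 : px u < ⌊u⌋ + 4 / 3 := by
      unfold px
      have : min (1 / 3 + 2 * Int.fract u) (5 / 6 + Int.fract u / 2) ≤ 5 / 6 + Int.fract u / 2 :=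
        min_le_right _ _
      linarith
    have h3 : (⌊v⌋ : ℝ) + 1 / 3 ≤ px v := by
      unfold px
      have : 1 / 3 ≤ min (1 / 3 + 2 * Int.fract v) (5 / 6 + Int.fract v / 2) := by
        apply le_min <;> linarith
      linarith
    linarith
  · have h1 : (⌊u⌋ : ℝ) = ⌊v⌋ := by exact_mod_cast h
    have h2 : Int.fract u < Int.fract v := by linarith
    unfold px
    rw [h1]
    have : min (1 / 3 + 2 * Int.fract u) (5 / 6 + Int.fract u / 2)
        < min (1 / 3 + 2 * Int.fract v) (5 / 6 + Int.fract v / 2) := by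
      apply lt_min
      · exact lt_of_le_of_lt (min_le_left _ _) (by linarith)
      · exact lt_of_le_of_lt (min_le_right _ _) (by linarith)
    linarith

/-- Reduce an identity of maps commuting with `+1` to `[a, a+1)`. -/
theorem reduce (F G : ℝ → ℝ) (hF : ∀ (u : ℝ) (n : ℤ), F (u + n) = F u + n)
    (hG : ∀ (u : ℝ) (n : ℤ), G (u + n) = G u + n) (a : ℝ)
    (h : ∀ u, a ≤ u → u ≤ a + 1 → F u = G u) (u : ℝ) : F u = G u := by
  have h1 : u = (a + Int.fract (u - a)) + (⌊u - a⌋ : ℤ) := by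
    have := Int.floor_add_fract (u - a)
    linarith
  rw [h1, hF, hG, h _ (by linarith [Int.fract_nonneg (u - a)])
    (by linarith [Int.fract_lt_one (u - a)])]

theorem px_px (u : ℝ) : px (px u) = u + 1 := by
  apply reduce (fun u => px (px u)) (fun u => u + 1) _ _ 0
  · intro u h0 h1
    rcases le_total u (1 / 3) with h | h
    · show px (px u) = u + 1
      rw [px_low h0 h, px_high (by linarith) (by linarith)]
      ring
    · show px (px u) = u + 1
      rw [px_high h (by linarith)]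
      have h2 : 5 / 6 + u / 2 = (u / 2 - 1 / 6) + 1 := by ring
      rw [h2, px_add_one, px_low (by linarith) (by linarith)]
      ring
  · intro u n
    show px (px (u + n)) = px (px u) + n
    rw [px_add_int, px_add_int]
  · intro u n
    ring

/-- `py u = px (u - 2/9)`. -/
noncomputable def py (u : ℝ) : ℝ := px (u - 2 / 9)

theorem py_add_int (u : ℝ) (n : ℤ) : py (u + n) = py u + n := by
  unfold py
  rw [← px_add_int]
  congr 1
  ring

theorem py_add_one (u : ℝ) : py (u + 1) = py u + 1 := by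
  have := py_add_int u 1
  simpa using this

theorem py_low {u : ℝ} (h0 : 2 / 9 ≤ u) (h1 : u ≤ 5 / 9) : py u = 2 * u - 1 / 9 := by
  unfold py
  rw [px_low (by linarith) (by linarith)]
  ring

theorem py_high {u : ℝ} (h0 : 5 / 9 ≤ u) (h1 : u ≤ 11 / 9) : py u = u / 2 + 13 / 18 := by
  unfold py
  rw [px_high (by linarith) (by linarith)]
  ring

theorem py_low' {u : ℝ} (h0 : 11 / 9 ≤ u) (h1 : u ≤ 14 / 9) : py u = 2 * u - 10 / 9 := by
  have h2 := py_add_one (u - 1)
  have h3 := py_low (u := u - 1) (by linarith) (by linarith)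
  rw [sub_add_cancel, h3] at h2
  rw [h2]; ring

theorem py_high' {u : ℝ} (h0 : 14 / 9 ≤ u) (h1 : u ≤ 20 / 9) : py u = u / 2 + 22 / 18 := by
  have h2 := py_add_one (u - 1)
  have h3 := py_high (u := u - 1) (by linarith) (by linarith)
  rw [sub_add_cancel, h3] at h2
  rw [h2]; ring

theorem py_four (u : ℝ) : py (py (py (py u))) = u + 1 := by
  apply reduce (fun u => py (py (py (py u)))) (fun u => u + 1) _ _ (2 / 9)
  · intro u h0 h1
    show py (py (py (py u))) = u + 1
    rcases le_total u (1 / 3) with h | h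
    · have e1 := py_low (u := u) (by linarith) (by linarith)
      have e2 := py_low (u := py u) (by linarith) (by linarith)
      have e3 := py_high (u := py (py u)) (by linarith) (by linarith)
      have e4 := py_high (u := py (py (py u))) (by linarith) (by linarith)
      linarith
    rcases le_total u (5 / 9) with h' | h'
    · have e1 := py_low (u := u) (by linarith) (by linarith)
      have e2 := py_high (u := py u) (by linarith) (by linarith)
      have e3 := py_high (u := py (py u)) (by linarith) (by linarith)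
      have e4 := py_low' (u := py (py (py u))) (by linarith) (by linarith)
      linarith
    rcases le_total u 1 with h'' | h''
    · have e1 := py_high (u := u) (by linarith) (by linarith)
      have e2 := py_high (u := py u) (by linarith) (by linarith)
      have e3 := py_low' (u := py (py u)) (by linarith) (by linarith)
      have e4 := py_low' (u := py (py (py u))) (by linarith) (by linarith)
      linarith
    · have e1 := py_high (u := u) (by linarith) (by linarith)
      have e2 := py_low' (u := py u) (by linarith) (by linarith)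
      have e3 := py_low' (u := py (py u)) (by linarith) (by linarith)
      have e4 := py_high' (u := py (py (py u))) (by linarith) (by linarith)
      linarith
  · intro u n
    show py (py (py (py (u + n)))) = py (py (py (py u))) + n
    rw [py_add_int, py_add_int, py_add_int, py_add_int]
  · intro u n
    ring

/-- `px` as a homeomorphism. -/
noncomputable def pxH : ℝ ≃ₜ ℝ where
  toFun := px
  invFun u := px u - 1
  left_inv u := by
    show px (px u) - 1 = u
    rw [px_px]; ring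
  right_inv u := by
    show px (px u - 1) = u
    rw [px_sub_one, px_px]; ring
  continuous_toFun := by
    apply px_strictMono.monotone.continuous_of_surjective
    intro u
    exact ⟨px u - 1, by rw [px_sub_one, px_px]; ring⟩
  continuous_invFun := by
    have : Continuous px := by
      apply px_strictMono.monotone.continuous_of_surjective
      intro u
      exact ⟨px u - 1, by rw [px_sub_one, px_px]; ring⟩
    exact this.sub continuous_const

/-- Conjugate of `px` by the translation by `2 i / 9`. -/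
noncomputable def qx (i : ℕ) (u : ℝ) : ℝ := px (u + i * (2 / 9)) - i * (2 / 9)

theorem qx_add_int (i : ℕ) (u : ℝ) (n : ℤ) : qx i (u + n) = qx i u + n := by
  unfold qx
  have : u + (n : ℝ) + i * (2 / 9) = (u + i * (2 / 9)) + n := by ring
  rw [this, px_add_int]
  ring

theorem qx_add_nat (i : ℕ) (u : ℝ) (n : ℕ) : qx i (u + n) = qx i u + n := by
  have := qx_add_int i u n
  simpa using this

theorem qx_qx (i : ℕ) (u : ℝ) : qx i (qx i u) = u + 1 := by
  unfold qx
  rw [sub_add_cancel, px_px]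
  ring

/-- `qx i` as a homeomorphism. -/
noncomputable def qxH (i : ℕ) : ℝ ≃ₜ ℝ :=
  ((Homeomorph.addRight ((i : ℝ) * (2 / 9))).trans pxH).trans
    (Homeomorph.addRight (-((i : ℝ) * (2 / 9))))

theorem qxH_apply (i : ℕ) (u : ℝ) : qxH i u = qx i u := by
  show px (u + i * (2 / 9)) + -(i * (2 / 9)) = qx i u
  unfold qx
  ring

theorem qx_bound (i : ℕ) (u : ℝ) : |qx i u - u| ≤ 2 := by
  unfold qx px
  set v := u + i * (2 / 9) with hv
  have h0 := Int.fract_nonneg v
  have h1 := Int.fract_lt_one v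
  have h2 := Int.floor_add_fract v
  have h3 : min (1 / 3 + 2 * Int.fract v) (5 / 6 + Int.fract v / 2) ≤ 5 / 6 + Int.fract v / 2 :=
    min_le_right _ _
  have h4 : 1 / 3 ≤ min (1 / 3 + 2 * Int.fract v) (5 / 6 + Int.fract v / 2) := by
    apply le_min <;> linarith
  rw [abs_le]
  constructor <;> linarith

theorem q0123 (u : ℝ) : qx 0 (qx 1 (qx 2 (qx 3 u))) = u + 17 / 9 := by
  have h := py_four (u + 8 / 9)
  unfold py at h
  unfold qx
  push_cast
  have e1 : u + 8 / 9 - 2 / 9 = u + 3 * (2 / 9) := by ring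
  rw [e1] at h
  have e2 : px (u + 3 * (2 / 9)) - 3 * (2 / 9) + 2 * (2 / 9) = px (u + 3 * (2 / 9)) - 2 / 9 := by
    ring
  rw [e2]
  have e3 : px (px (u + 3 * (2 / 9)) - 2 / 9) - 2 * (2 / 9) + 1 * (2 / 9)
      = px (px (u + 3 * (2 / 9)) - 2 / 9) - 2 / 9 := by
    ring
  rw [e3]
  have e4 : px (px (px (u + 3 * (2 / 9)) - 2 / 9) - 2 / 9) - 1 * (2 / 9) + 0 * (2 / 9)
      = px (px (px (u + 3 * (2 / 9)) - 2 / 9) - 2 / 9) - 2 / 9 := by
    ring
  rw [e4, h]
  ring

theorem q3210 (u : ℝ) : qx 3 (qx 2 (qx 1 (qx 0 u))) = u + 19 / 9 := by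
  have h : ∀ v : ℝ, qx 3 (qx 2 (qx 1 (qx 0 (qx 0 (qx 1 (qx 2 (qx 3 v))))))) = v + 4 := by
    intro v
    have a1 : ∀ (i : ℕ) (w : ℝ), qx i (w + 1) = qx i w + 1 := by
      intro i w
      have := qx_add_nat i w 1
      simpa using this
    rw [qx_qx, a1, qx_qx, a1, a1, a1, qx_qx, a1, a1, qx_qx]
    ring
  have h2 := h (u - 17 / 9)
  rw [q0123, sub_add_cancel] at h2
  rw [h2]
  ring

/-- The homeomorphisms `X i` of the plane. -/
noncomputable def X (i : ℕ) : ℝ × ℝ ≃ₜ ℝ × ℝ :=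
  (qxH i).prodCongr (Homeomorph.addRight (1 / 2))

theorem X_apply (i : ℕ) (z : ℝ × ℝ) : X i z = (qx i z.1, z.2 + 1 / 2) := by
  show (qxH i z.1, z.2 + 1 / 2) = _
  rw [qxH_apply]

/-- The linear shear `Phi` along `(1,1)`. -/
def Phi : ℝ × ℝ ≃ₜ ℝ × ℝ where
  toFun z := (z.1 - 36 * (z.1 - z.2), z.2 - 36 * (z.1 - z.2))
  invFun z := (z.1 + 36 * (z.1 - z.2), z.2 + 36 * (z.1 - z.2))
  left_inv z := by ext <;> simp
  right_inv z := by ext <;> simp
  continuous_toFun := by fun_prop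
  continuous_invFun := by fun_prop

theorem Phi_apply (z : ℝ × ℝ) : Phi z = (z.1 - 36 * (z.1 - z.2), z.2 - 36 * (z.1 - z.2)) := rfl

theorem Phi_inv_apply (z : ℝ × ℝ) :
    Phi⁻¹ z = (z.1 + 36 * (z.1 - z.2), z.2 + 36 * (z.1 - z.2)) := rfl

/-- Translation by `(1,1)`. -/
def T11 : ℝ × ℝ ≃ₜ ℝ × ℝ := (Homeomorph.addRight 1).prodCongr (Homeomorph.addRight 1)

theorem T11_apply (z : ℝ × ℝ) : T11 z = (z.1 + 1, z.2 + 1) := rfl

theorem X_sq (i : ℕ) : X i * X i = T11 := by
  apply Homeomorph.ext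
  intro z
  rw [Homeomorph.mul_apply, X_apply, X_apply, T11_apply]
  ext
  · exact qx_qx i z.1
  · show z.2 + 1 / 2 + 1 / 2 = z.2 + 1
    ring

theorem X_bd (i : ℕ) : X i ∈ BD (ℝ × ℝ) := by
  refine ⟨2, fun z => ?_⟩
  rw [X_apply, Prod.norm_def]
  apply max_le
  · exact qx_bound i z.1
  · show ‖z.2 + 1 / 2 - z.2‖ ≤ 2
    rw [add_sub_cancel_left, Real.norm_eq_abs]
    norm_num

theorem Phi_conj_T11 : Phi * T11 * Phi⁻¹ = T11 := by
  apply Homeomorph.ext
  intro z
  rw [Homeomorph.mul_apply, Homeomorph.mul_apply, Phi_inv_apply, T11_apply, Phi_apply, T11_apply]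
  ext <;> simp <;> ring

theorem Phi_bound (z : ℝ × ℝ) : ‖Phi z‖ ≤ 73 * ‖z‖ := by
  have h1 : |z.1| ≤ ‖z‖ := norm_fst_le z
  have h2 : |z.2| ≤ ‖z‖ := norm_snd_le z
  rw [abs_le] at h1 h2
  rw [Phi_apply, Prod.norm_def]
  apply max_le
  · rw [Real.norm_eq_abs, abs_le]
    constructor <;> simp only <;> linarith
  · rw [Real.norm_eq_abs, abs_le]
    constructor <;> simp only <;> linarith

theorem Phi_conj_bd {f : ℝ × ℝ ≃ₜ ℝ × ℝ} (hf : f ∈ BD (ℝ × ℝ)) :
    Phi * f * Phi⁻¹ ∈ BD (ℝ × ℝ) := by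
  obtain ⟨C, hC⟩ := hf
  refine ⟨73 * C, fun z => ?_⟩
  rw [Homeomorph.mul_apply, Homeomorph.mul_apply]
  have h1 : z = Phi (Phi⁻¹ z) := by
    rw [← Homeomorph.mul_apply, mul_inv_cancel]; rfl
  have h2 : Phi (f (Phi⁻¹ z)) - z = Phi (f (Phi⁻¹ z) - Phi⁻¹ z) := by
    conv_lhs => rw [h1]
    have h3 : Phi⁻¹ (Phi (Phi⁻¹ z)) = Phi⁻¹ z := by rw [← h1]
    rw [h3]
    generalize Phi⁻¹ z = w
    generalize f w = w'
    rw [Phi_apply, Phi_apply, Phi_apply]
    ext <;> simp <;> ring
  rw [h2]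
  refine (Phi_bound _).trans ?_
  linarith [hC (Phi⁻¹ z)]

/-- The element `X i` of `BD`. -/
noncomputable def XB (i : ℕ) : BD (ℝ × ℝ) := ⟨X i, X_bd i⟩

/-- The element `Phi * X i * Phi⁻¹` of `BD`. -/
noncomputable def YB (i : ℕ) : BD (ℝ × ℝ) := ⟨Phi * X i * Phi⁻¹, Phi_conj_bd (X_bd i)⟩

/-- The translation by `(1,1)` in `BD`. -/
noncomputable def TB : BD (ℝ × ℝ) := XB 0 * XB 0

theorem TB_coe : (TB : ℝ × ℝ ≃ₜ ℝ × ℝ) = T11 := X_sq 0

theorem XB_sq (i : ℕ) : XB i * XB i = TB := by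
  apply Subtype.ext
  rw [TB_coe]
  exact X_sq i

theorem YB_sq (i : ℕ) : YB i * YB i = TB := by
  apply Subtype.ext
  rw [TB_coe]
  show (Phi * X i * Phi⁻¹) * (Phi * X i * Phi⁻¹) = T11
  have : (Phi * X i * Phi⁻¹) * (Phi * X i * Phi⁻¹) = Phi * (X i * X i) * Phi⁻¹ := by group
  rw [this, X_sq, Phi_conj_T11]

theorem TB_ne_one : TB ≠ 1 := by
  intro h
  have h1 := congrArg (fun f : BD (ℝ × ℝ) => (f : ℝ × ℝ ≃ₜ ℝ × ℝ) (0, 0)) h
  simp only [TB_coe, T11_apply] at h1
  have h2 := congrArg Prod.fst h1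
  simp at h2

theorem XB_prod :
    XB 0 * XB 1 * XB 2 * XB 3 * (YB 3 * YB 2 * YB 1 * YB 0) = 1 := by
  apply Subtype.ext
  show X 0 * X 1 * X 2 * X 3 * ((Phi * X 3 * Phi⁻¹) * (Phi * X 2 * Phi⁻¹) * (Phi * X 1 * Phi⁻¹)
    * (Phi * X 0 * Phi⁻¹)) = 1
  have h1 : (Phi * X 3 * Phi⁻¹) * (Phi * X 2 * Phi⁻¹) * (Phi * X 1 * Phi⁻¹)
    * (Phi * X 0 * Phi⁻¹) = Phi * (X 3 * X 2 * X 1 * X 0) * Phi⁻¹ := by group
  rw [h1]
  apply Homeomorph.ext
  intro z
  have h2 : ∀ w : ℝ × ℝ, (X 3 * X 2 * X 1 * X 0) w = (w.1 + 19 / 9, w.2 + 2) := by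
    intro w
    rw [Homeomorph.mul_apply, Homeomorph.mul_apply, Homeomorph.mul_apply, X_apply, X_apply,
      X_apply, X_apply]
    ext
    · exact q3210 w.1
    · show w.2 + 1 / 2 + 1 / 2 + 1 / 2 + 1 / 2 = w.2 + 2
      ring
  have h3 : ∀ w : ℝ × ℝ, (X 0 * X 1 * X 2 * X 3) w = (w.1 + 17 / 9, w.2 + 2) := by
    intro w
    rw [Homeomorph.mul_apply, Homeomorph.mul_apply, Homeomorph.mul_apply, X_apply, X_apply,
      X_apply, X_apply]
    ext
    · exact q0123 w.1
    · show w.2 + 1 / 2 + 1 / 2 + 1 / 2 + 1 / 2 = w.2 + 2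
      ring
  have h4 : (X 0 * X 1 * X 2 * X 3 * (Phi * (X 3 * X 2 * X 1 * X 0) * Phi⁻¹)) z
      = (X 0 * X 1 * X 2 * X 3) (Phi ((X 3 * X 2 * X 1 * X 0) (Phi⁻¹ z))) := rfl
  rw [h4, h3, h2, Phi_inv_apply, Phi_apply]
  show _ = z
  ext
  · simp; ring
  · simp; ring

/-- The sequence of eight roots. -/
noncomputable def seqX : ℕ → BD (ℝ × ℝ)
  | 1 => XB 0
  | 2 => XB 1
  | 3 => XB 2
  | 4 => XB 3
  | 5 => YB 3
  | 6 => YB 2
  | 7 => YB 1
  | 8 => YB 0
  | _ => XB 0

theorem seqX_sq (i : ℕ) : seqX i * seqX i = TB := by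
  unfold seqX
  split <;> first | exact XB_sq _ | exact YB_sq _

theorem P_seqX : P seqX 8 = 1 := by
  have h : P seqX 8 = XB 0 * XB 1 * XB 2 * XB 3 * (YB 3 * YB 2 * YB 1 * YB 0) := by
    simp only [P, seqX, one_mul, mul_assoc]
  rw [h, XB_prod]

/-- A finite set of homeomorphisms of the plane of bounded displacement. -/
theorem exists_BD_set : ∃ A : Set (BD (ℝ × ℝ)), A.Finite ∧ A.Nonempty ∧
    ∀ a ∈ A, ∀ b ∈ A, ∃ u, u ≠ 1 ∧ a * u ∈ A ∧ b * u ∈ A :=
  exists_finite_set seqX TB 8 (by norm_num) seqX_sq TB_ne_one P_seqX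

end Pool.Agent.UPP42
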