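import Mathlib

/-!
# Roots of a common element with trivial product destroy the unique product property

Let `G` be a group, `t ≠ 1`, `x 1, …, x N` elements with `x i * x i = t` and `x 1 * ⋯ * x N = 1`.
We construct a finite nonempty set `A ⊆ G` such that for all `a b ∈ A` there is `u ≠ 1` with
`a * u ∈ A` and `b * u ∈ A`.
-/

set_option autoImplicit false
set_option linter.unusedSectionVars false
set_option linter.unnecessarySimpa false

namespace Pool.Agent.UPP42

variable {G : Type*} [Group G]

/-- `W x [i₁, …, i_r] = x i_r * ⋯ * x i₁`. -/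
def W (x : ℕ → G) : List ℕ → G
  | [] => 1
  | (i :: l) => W x l * x i

/-- `P x m = x 1 * ⋯ * x m`. -/
def P (x : ℕ → G) : ℕ → G
  | 0 => 1
  | (m + 1) => P x m * x (m + 1)

/-- Admissible data. -/
def Ok (N m : ℕ) (l : List ℕ) (s : ℕ) : Prop :=
  m < N ∧ l.Pairwise (· < ·) ∧ (∀ i ∈ l, 1 ≤ i ∧ i < N ∧ (m = 0 ∨ i < m)) ∧ s + l.length ≤ N

/-- The set. -/
def setA (x : ℕ → G) (t : G) (N : ℕ) : Set G :=
  {a | ∃ m l s, Ok N m l s ∧ a = P x m * W x l * t ^ s}

theorem length_le (M : ℕ) : ∀ (l : List ℕ) (k : ℕ), l.Pairwise (· < ·) →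
    (∀ i ∈ l, k ≤ i ∧ i < M) → l.length ≤ M - k := by
  intro l
  induction l with
  | nil => intro k _ _; simp
  | cons i l ih =>
    intro k hp hb
    rw [List.pairwise_cons] at hp
    have h1 : l.length ≤ M - (i + 1) := by
      apply ih (i + 1) hp.2
      intro j hj
      exact ⟨hp.1 j hj, (hb j (List.mem_cons_of_mem _ hj)).2⟩
    have h2 := hb i List.mem_cons_self
    simp only [List.length_cons]
    omega

theorem finite_lists (N : ℕ) : ∀ n : ℕ,
    {l : List ℕ | l.length ≤ n ∧ ∀ i ∈ l, i < N}.Finite := by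
  intro n
  induction n with
  | zero =>
    apply Set.Finite.subset (Set.finite_singleton ([] : List ℕ))
    intro l hl
    simpa using hl.1
  | succ n ih =>
    apply Set.Finite.subset ((Set.finite_singleton ([] : List ℕ)).union
      (Set.Finite.image2 List.cons (Set.finite_Iio N) ih))
    intro l hl
    cases l with
    | nil => left; rfl
    | cons i l =>
      right
      refine ⟨i, hl.2 i List.mem_cons_self, l, ⟨?_, ?_⟩, rfl⟩
      · have := hl.1
        simp only [List.length_cons] at this
        omega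
      · intro j hj
        exact hl.2 j (List.mem_cons_of_mem _ hj)

theorem setA_finite (x : ℕ → G) (t : G) (N : ℕ) : (setA x t N).Finite := by
  have h1 : ((Set.Iio N) ×ˢ ({l : List ℕ | l.length ≤ N ∧ ∀ i ∈ l, i < N} ×ˢ (Set.Iic N))).Finite :=
    (Set.finite_Iio N).prod ((finite_lists N N).prod (Set.finite_Iic N))
  apply Set.Finite.subset (h1.image (fun q : ℕ × List ℕ × ℕ => P x q.1 * W x q.2.1 * t ^ q.2.2))
  rintro a ⟨m, l, s, ⟨hm, _, hb, hs⟩, rfl⟩
  refine ⟨(m, l, s), ⟨hm, ⟨⟨?_, ?_⟩, ?_⟩⟩, rfl⟩
  · show l.length ≤ N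
    omega
  · intro i hi
    exact (hb i hi).2.1
  · show s ≤ N
    omega

section

variable {x : ℕ → G} {t : G} {N : ℕ}

theorem one_mem_setA (hN : 0 < N) : (1 : G) ∈ setA x t N :=
  ⟨0, [], 0, ⟨hN, List.Pairwise.nil, by simp, by simp⟩, by simp [P, W]⟩

variable (hx : ∀ i, x i * x i = t)
include hx

theorem comm_t (i : ℕ) : Commute t (x i) := by
  rw [← hx i]
  exact (Commute.refl (x i)).mul_left (Commute.refl (x i))

theorem inv_x (i : ℕ) : (x i)⁻¹ = x i * t⁻¹ := by
  have h := hx i
  rw [← h]
  group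

theorem mul_x (a : G) (s i : ℕ) : a * t ^ s * x i = a * x i * t ^ s := by
  rw [mul_assoc, ((comm_t hx i).pow_left s).eq, ← mul_assoc]

theorem mul_x_inv (a : G) (s i : ℕ) : a * t ^ (s + 1) * (x i)⁻¹ = a * x i * t ^ s := by
  have h : a * t ^ (s + 1) = a * t ^ s * x i * x i := by
    rw [pow_succ, ← hx i, ← mul_assoc, ← mul_assoc]
  rw [h, mul_inv_cancel_right, mul_x hx]

theorem mul_x_inv' (a : G) (s i : ℕ) : a * x i * t ^ s * (x i)⁻¹ = a * t ^ s := by
  rw [← mul_x hx, mul_inv_cancel_right]

theorem mul_x_x (a : G) (s i : ℕ) : a * x i * t ^ s * x i = a * t ^ (s + 1) := by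
  rw [mul_x hx, mul_assoc a, hx i, mul_assoc, ← pow_succ']

/-- adding a new smallest letter -/
theorem mem_cons {m : ℕ} {l : List ℕ} {s i : ℕ} (hok : Ok N m l s)
    (hi1 : 1 ≤ i) (hiN : i < N) (him : m = 0 ∨ i < m) (hil : ∀ j ∈ l, i < j)
    (hs : s + l.length + 1 ≤ N) : P x m * W x l * x i * t ^ s ∈ setA x t N := by
  obtain ⟨hm, hp, hb, _⟩ := hok
  refine ⟨m, i :: l, s, ⟨hm, ?_, ?_, ?_⟩, ?_⟩
  · rw [List.pairwise_cons]
    exact ⟨hil, hp⟩
  · intro j hj
    rcases List.mem_cons.1 hj with h | h
    · subst h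
      exact ⟨hi1, hiN, him⟩
    · exact hb j h
  · simp only [List.length_cons]
    omega
  · simp [W, mul_assoc]

theorem mem_tail {m : ℕ} {l : List ℕ} {s i s' : ℕ} (hok : Ok N m (i :: l) s)
    (hs : s' + l.length ≤ N) : P x m * W x l * t ^ s' ∈ setA x t N := by
  obtain ⟨hm, hp, hb, _⟩ := hok
  rw [List.pairwise_cons] at hp
  exact ⟨m, l, s', ⟨hm, hp.2, fun j hj => hb j (List.mem_cons_of_mem _ hj), hs⟩, rfl⟩

/-- the element `P (m+1) * t^s` for `m < N` (cyclically) -/
theorem mem_P (hprod : P x N = 1) {m s : ℕ} (hm : m ≤ N) (hN : 0 < N) (hs : s ≤ N) :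
    P x m * t ^ s ∈ setA x t N := by
  rcases Nat.lt_or_ge m N with h | h
  · exact ⟨m, [], s, ⟨h, List.Pairwise.nil, by simp, by simpa using hs⟩, by simp [W]⟩
  · have : m = N := le_antisymm hm h
    subst this
    refine ⟨0, [], s, ⟨hN, List.Pairwise.nil, by simp, by simpa using hs⟩, ?_⟩
    rw [hprod]
    simp [P, W]

theorem len_lt {m : ℕ} {l : List ℕ} {s : ℕ} (hok : Ok N m l s) : l.length + 1 ≤ N := by
  obtain ⟨hm, hp, hb, _⟩ := hok
  have := length_le N l 1 hp (fun i hi => ⟨(hb i hi).1, (hb i hi).2.1⟩)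
  omega

/-- Upper alternative. -/
theorem up (hprod : P x N = 1) {a : G} (ha : a ∈ setA x t N) :
    a * t ∈ setA x t N ∨ (a * t⁻¹ ∈ setA x t N ∧ ∃ k, 1 ≤ k ∧ a * x k ∈ setA x t N ∧
      ∀ i, 1 ≤ i → i ≤ k → a * (x i)⁻¹ ∈ setA x t N) := by
  obtain ⟨m, l, s, hok, rfl⟩ := ha
  have hlen := len_lt hx hok
  have hok' := hok
  obtain ⟨hm, hp, hb, hs⟩ := hok'
  rcases Nat.lt_or_ge (s + l.length) N with h | h
  · left
    exact ⟨m, l, s + 1, ⟨hm, hp, hb, by omega⟩, by rw [pow_succ, mul_assoc]⟩
  · right
    have hseq : s + l.length = N := le_antisymm hs h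
    obtain ⟨s', rfl⟩ : ∃ s', s = s' + 1 := ⟨s - 1, by omega⟩
    refine ⟨⟨m, l, s', ⟨hm, hp, hb, by omega⟩, by rw [pow_succ]; group⟩, ?_⟩
    cases l with
    | nil =>
      simp only [List.length_nil, add_zero] at hseq
      refine ⟨m + 1, by omega, ?_, ?_⟩
      · rw [mul_x hx]
        have := mem_P hx hprod (m := m + 1) (s := s' + 1) hm (by omega) (by omega)
        simpa [P, W] using this
      · intro i hi1 hik
        rcases Nat.lt_or_ge i m with him | him
        · rw [mul_x_inv hx]
          apply mem_cons hx (⟨hm, hp, hb, by simp; omega⟩ : Ok N m [] s') hi1 (by omega)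
            (Or.inr him) (by simp)
          simp
          omega
        · rcases Nat.lt_or_ge m i with him2 | him2
          · have : i = m + 1 := by omega
            subst this
            rw [mul_x_inv hx]
            have := mem_P hx hprod (m := m + 1) (s := s') hm (by omega) (by omega)
            simpa [P, W] using this
          · have : i = m := le_antisymm him2 him
            subst this
            obtain ⟨m', rfl⟩ : ∃ m', i = m' + 1 := ⟨i - 1, by omega⟩
            have := mem_P hx hprod (m := m') (s := s' + 1) (by omega) (by omega) (by omega)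
            have h2 : P x (m' + 1) * W x [] * t ^ (s' + 1) * (x (m' + 1))⁻¹
                = P x m' * t ^ (s' + 1) := by
              simp only [P, W, mul_one]
              rw [mul_x_inv' hx]
            rw [h2]
            exact this
    | cons k l =>
      have hk := hb k List.mem_cons_self
      simp only [List.length_cons] at hseq hlen hs
      rw [List.pairwise_cons] at hp
      refine ⟨k, hk.1, ?_, ?_⟩
      · have : P x m * W x (k :: l) * t ^ (s' + 1) * x k = P x m * W x l * t ^ (s' + 1 + 1) := by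
          simp only [W]
          rw [← mul_assoc (P x m), mul_x_x hx]
        rw [this]
        exact mem_tail hx hok (by omega)
      · intro i hi1 hik
        rcases Nat.lt_or_ge i k with hik2 | hik2
        · rw [mul_x_inv hx]
          apply mem_cons hx (⟨hm, List.pairwise_cons.2 hp, hb, by simp; omega⟩ :
            Ok N m (k :: l) s') hi1 (by omega)
          · rcases hk.2.2 with h | h
            · exact Or.inl h
            · exact Or.inr (by omega)
          · intro j hj
            rcases List.mem_cons.1 hj with h | h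
            · omega
            · exact lt_trans hik2 (hp.1 j h)
          · simp
            omega
        · have : i = k := le_antisymm hik hik2
          subst this
          have : P x m * W x (i :: l) * t ^ (s' + 1) * (x i)⁻¹ = P x m * W x l * t ^ (s' + 1) := by
            simp only [W]
            rw [← mul_assoc (P x m), mul_x_inv' hx]
          rw [this]
          exact mem_tail hx hok (by omega)

/-- Lower alternative. -/
theorem down (hprod : P x N = 1) {a : G} (ha : a ∈ setA x t N) :
    a * t⁻¹ ∈ setA x t N ∨ (a * t ∈ setA x t N ∧ ∃ k, 1 ≤ k ∧ a * (x k)⁻¹ ∈ setA x t N ∧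
      ∀ i, 1 ≤ i → i ≤ k → a * x i ∈ setA x t N) := by
  obtain ⟨m, l, s, hok, rfl⟩ := ha
  have hlen := len_lt hx hok
  have hok' := hok
  obtain ⟨hm, hp, hb, hs⟩ := hok'
  rcases Nat.eq_zero_or_pos s with h | h
  · right
    subst h
    refine ⟨⟨m, l, 1, ⟨hm, hp, hb, by omega⟩, by simp⟩, ?_⟩
    cases l with
    | nil =>
      rcases Nat.eq_zero_or_pos m with h0 | h0
      · subst h0
        obtain ⟨N', rfl⟩ : ∃ N', N = N' + 1 := ⟨N - 1, by omega⟩
        have hPN : P x N' * x (N' + 1) = 1 := hprod
        have hPN' : (x (N' + 1))⁻¹ = P x N' := by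
          rw [← mul_left_inj (x (N' + 1)), hPN, inv_mul_cancel]
        refine ⟨N' + 1, by omega, ?_, ?_⟩
        · have := mem_P hx hprod (m := N') (s := 0) (by omega) (by omega) (by omega)
          simpa [P, W, hPN'] using this
        · intro i hi1 hiN
          rcases Nat.lt_or_ge i (N' + 1) with h | h
          · rw [mul_x hx]
            exact mem_cons hx hok hi1 h (Or.inl rfl) (by simp) (by simpa using hlen)
          · have : i = N' + 1 := le_antisymm hiN h
            subst this
            have := mem_P hx hprod (m := N') (s := 1) (by omega) (by omega) (by omega)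
            have h3 : P x 0 * W x [] * t ^ 0 * x (N' + 1) = P x N' * t ^ 1 := by
              rw [← hPN', pow_one, ← hx (N' + 1)]
              simp [P, W]
            rw [h3]
            exact this
      · obtain ⟨m', rfl⟩ : ∃ m', m = m' + 1 := ⟨m - 1, by omega⟩
        refine ⟨m' + 1, by omega, ?_, ?_⟩
        · have := mem_P hx hprod (m := m') (s := 0) (by omega) (by omega) (by omega)
          simpa [P, W] using this
        · intro i hi1 him
          rcases Nat.lt_or_ge i (m' + 1) with h | h
          · rw [mul_x hx]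
            exact mem_cons hx hok hi1 (by omega) (Or.inr h) (by simp) (by simpa using hlen)
          · have : i = m' + 1 := le_antisymm him h
            subst this
            have := mem_P hx hprod (m := m') (s := 1) (by omega) (by omega) (by omega)
            have h3 : P x (m' + 1) * W x [] * t ^ 0 * x (m' + 1) = P x m' * t ^ 1 := by
              simp only [P, W, mul_one]
              rw [mul_x_x hx]
            rw [h3]
            exact this
    | cons k l =>
      have hk := hb k List.mem_cons_self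
      simp only [List.length_cons] at hlen hs
      rw [List.pairwise_cons] at hp
      refine ⟨k, hk.1, ?_, ?_⟩
      · have : P x m * W x (k :: l) * t ^ 0 * (x k)⁻¹ = P x m * W x l * t ^ 0 := by
          simp only [W]
          rw [← mul_assoc (P x m), mul_x_inv' hx]
        rw [this]
        exact mem_tail hx hok (by omega)
      · intro i hi1 hik
        rcases Nat.lt_or_ge i k with hik2 | hik2
        · rw [mul_x hx]
          apply mem_cons hx hok hi1 (by omega)
          · rcases hk.2.2 with h | h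
            · exact Or.inl h
            · exact Or.inr (by omega)
          · intro j hj
            rcases List.mem_cons.1 hj with h | h
            · omega
            · exact lt_trans hik2 (hp.1 j h)
          · simpa using hlen
        · have : i = k := le_antisymm hik hik2
          subst this
          have : P x m * W x (i :: l) * t ^ 0 * x i = P x m * W x l * t ^ 1 := by
            simp only [W]
            rw [← mul_assoc (P x m), mul_x_x hx]
          rw [this]
          exact mem_tail hx hok (by omega)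
  · left
    obtain ⟨s', rfl⟩ : ∃ s', s = s' + 1 := ⟨s - 1, by omega⟩
    exact ⟨m, l, s', ⟨hm, hp, hb, by omega⟩, by rw [pow_succ]; group⟩


theorem cross (ht : t ≠ 1) {A : Set G} {a b : G}
    (hT : ∃ k, 1 ≤ k ∧ a * x k ∈ A ∧ ∀ i, 1 ≤ i → i ≤ k → a * (x i)⁻¹ ∈ A)
    (hB : ∃ k, 1 ≤ k ∧ b * (x k)⁻¹ ∈ A ∧ ∀ i, 1 ≤ i → i ≤ k → b * x i ∈ A) :
    ∃ u, u ≠ 1 ∧ a * u ∈ A ∧ b * u ∈ A := by
  have hne : ∀ i, x i ≠ 1 := by
    intro i h
    apply ht
    rw [← hx i, h, mul_one]
  obtain ⟨k, hk1, hk2, hk3⟩ := hT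
  obtain ⟨k', hk1', hk2', hk3'⟩ := hB
  rcases Nat.lt_or_ge k' k with h | h
  · exact ⟨(x k')⁻¹, inv_ne_one.2 (hne k'), hk3 k' hk1' h.le, hk2'⟩
  · exact ⟨x k, hne k, hk2, hk3' k hk1 h⟩

/-- The key property of the set. -/
theorem setA_pairs (ht : t ≠ 1) (hprod : P x N = 1) {a b : G}
    (ha : a ∈ setA x t N) (hb : b ∈ setA x t N) :
    ∃ u, u ≠ 1 ∧ a * u ∈ setA x t N ∧ b * u ∈ setA x t N := by
  have ha1 := up hx hprod ha
  have ha2 := down hx hprod ha
  have hb1 := up hx hprod hb
  have hb2 := down hx hprod hb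
  by_cases h1 : a * t ∈ setA x t N
  · by_cases h2 : b * t ∈ setA x t N
    · exact ⟨t, ht, h1, h2⟩
    · have hbT := hb1.resolve_left h2
      by_cases h3 : a * t⁻¹ ∈ setA x t N
      · exact ⟨t⁻¹, inv_ne_one.2 ht, h3, hbT.1⟩
      · have haB := ha2.resolve_left h3
        obtain ⟨u, hu, h4, h5⟩ := cross hx ht hbT.2 haB.2
        exact ⟨u, hu, h5, h4⟩
  · have haT := ha1.resolve_left h1
    by_cases h3 : b * t⁻¹ ∈ setA x t N
    · exact ⟨t⁻¹, inv_ne_one.2 ht, haT.1, h3⟩
    · have hbB := hb2.resolve_left h3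
      exact cross hx ht haT.2 hbB.2

end

/-- If `x 1, …, x N` have a common square `t ≠ 1` and `x 1 * ⋯ * x N = 1` with `N ≥ 1` then there is
a finite nonempty set `A` such that for all `a b ∈ A` there is `u ≠ 1` with `a u ∈ A`, `b u ∈ A`. -/
theorem exists_finite_set (x : ℕ → G) (t : G) (N : ℕ) (hN : 0 < N) (hx : ∀ i, x i * x i = t)
    (ht : t ≠ 1) (hprod : P x N = 1) :
    ∃ A : Set G, A.Finite ∧ A.Nonempty ∧
      ∀ a ∈ A, ∀ b ∈ A, ∃ u, u ≠ 1 ∧ a * u ∈ A ∧ b * u ∈ A :=
  ⟨setA x t N, setA_finite x t N, ⟨1, one_mem_setA hN⟩,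
    fun _ ha _ hb => setA_pairs hx ht hprod ha hb⟩

end Pool.Agent.UPP42
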