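import Pool.Agent.UPP42.PL

/-!
# The group of homeomorphisms of the disk fixing the boundary: an injective homomorphism from BD
-/

set_option autoImplicit false

namespace Pool.Agent.UPP42

/-- Coordinates on the Euclidean plane. -/
noncomputable def coordE : EuclideanSpace ℝ (Fin 2) ≃L[ℝ] (ℝ × ℝ) :=
  (EuclideanSpace.equiv (Fin 2) ℝ).trans (ContinuousLinearEquiv.finTwoArrow ℝ ℝ)

/-- Conjugation by a continuous linear equivalence preserves bounded displacement. -/
noncomputable def conjE {E F : Type*} [NormedAddCommGroup E] [NormedSpace ℝ E]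
    [NormedAddCommGroup F] [NormedSpace ℝ F] (L : E ≃L[ℝ] F) : BD F →* BD E where
  toFun f := ⟨(L.toHomeomorph.trans (f : F ≃ₜ F)).trans L.symm.toHomeomorph, by
    obtain ⟨C, hC⟩ := f.2
    refine ⟨‖(L.symm : F →L[ℝ] E)‖ * C, fun z => ?_⟩
    have h1 : ((L.toHomeomorph.trans (f : F ≃ₜ F)).trans L.symm.toHomeomorph) z - z
        = (L.symm : F →L[ℝ] E) ((f : F ≃ₜ F) (L z) - L z) := by
      rw [map_sub]
      simp
    rw [h1]
    exact ((L.symm : F →L[ℝ] E).le_opNorm _).trans
      (mul_le_mul_of_nonneg_left (hC _) (norm_nonneg _))⟩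
  map_one' := by
    apply Subtype.ext
    apply Homeomorph.ext
    intro z
    show L.symm (L z) = z
    simp
  map_mul' f g := by
    apply Subtype.ext
    apply Homeomorph.ext
    intro z
    show L.symm ((f : F ≃ₜ F) ((g : F ≃ₜ F) (L z)))
      = L.symm ((f : F ≃ₜ F) (L (L.symm ((g : F ≃ₜ F) (L z)))))
    simp

theorem conjE_injective {E F : Type*} [NormedAddCommGroup E] [NormedSpace ℝ E]
    [NormedAddCommGroup F] [NormedSpace ℝ F] (L : E ≃L[ℝ] F) :
    Function.Injective (conjE L) := by
  intro f g h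
  apply Subtype.ext
  apply Homeomorph.ext
  intro w
  have h1 := congrArg (fun k : BD E => (k : E ≃ₜ E) (L.symm w)) h
  have h2 : L.symm ((f : F ≃ₜ F) (L (L.symm w))) = L.symm ((g : F ≃ₜ F) (L (L.symm w))) := h1
  simpa using h2

/-- The embedding into the homeomorphism group of the disk. -/
noncomputable def toDisk : BD (ℝ × ℝ) →*
    (↥(Metric.closedBall (0 : EuclideanSpace ℝ (Fin 2)) 1) ≃ₜ
      ↥(Metric.closedBall (0 : EuclideanSpace ℝ (Fin 2)) 1)) := discH.comp (conjE coordE)

theorem toDisk_injective : Function.Injective toDisk :=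
  discH_injective.comp (conjE_injective coordE)

theorem toDisk_boundary (f : BD (ℝ × ℝ))
    (x : ↥(Metric.closedBall (0 : EuclideanSpace ℝ (Fin 2)) 1))
    (hx : ‖(x : EuclideanSpace ℝ (Fin 2))‖ = 1) : toDisk f x = x :=
  discH_boundary _ x hx

end Pool.Agent.UPP42
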